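import Pool.Agent.H7.LVP.MJ0

/-! Row MJ of the board `lvp_modules` (problem MP_e21eee_nt): the moment over the major arcs. -/

set_option autoImplicit false

namespace Pool.Agent.H7.LVP

open Finset MeasureTheory Pool.Agent.H24.CL Pool.Agent.H24.LV

/-! ### arithmetic -/

theorem dvd_aux {k : ℕ} {q q' : ℕ} {a : Fin k → ℕ} (hq : 1 ≤ q)
    (h1 : ∀ d : ℕ, d ∣ q → (∀ i, d ∣ a i) → d = 1) (h2 : ∀ i, q ∣ a i * q') : q ∣ q' := by
  obtain ⟨s, t, hco, hs, ht⟩ := Nat.exists_coprime q q'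
  have hg : 0 < Nat.gcd q q' := Nat.gcd_pos_of_pos_left _ hq
  have h3 : s = 1 := by
    refine h1 s ⟨Nat.gcd q q', hs⟩ fun i => ?_
    have h4 := h2 i
    have h5 : s * Nat.gcd q q' ∣ (a i * t) * Nat.gcd q q' := by
      have h6 : (a i * t) * Nat.gcd q q' = a i * q' := by
        rw [mul_assoc]
        exact congrArg (a i * ·) ht.symm
      rw [h6]
      exact hs ▸ h4
    exact hco.dvd_of_dvd_mul_right (Nat.dvd_of_mul_dvd_mul_right hg h5)
  rw [h3, one_mul] at hs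
  rw [hs]
  exact Nat.gcd_dvd_right q q'

theorem mem_Red {k q : ℕ} {a : Fin k → ℕ} : a ∈ Red k q ↔ (∀ i, a i < q) ∧
    ∀ d : ℕ, d ∣ q → (∀ i, d ∣ a i) → d = 1 := by
  classical
  unfold Red
  rw [mem_filter, Fintype.mem_piFinset]
  simp only [mem_range]

theorem red_eq {k : ℕ} {q q' : ℕ} {a a' : Fin k → ℕ} (hq : 1 ≤ q) (hq' : 1 ≤ q')
    (ha : a ∈ Red k q) (ha' : a' ∈ Red k q')
    (h : ∀ i, ∃ n : ℤ, (a i : ℤ) * q' - a' i * q = n * (q * q')) : q = q' ∧ a = a' := by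
  rw [mem_Red] at ha ha'
  have h1 : q ∣ q' := dvd_aux hq ha.2 fun i => by
    obtain ⟨n, hn⟩ := h i
    have h2 : (q : ℤ) ∣ ((a i * q' : ℕ) : ℤ) := ⟨a' i + n * q', by push_cast; linear_combination hn⟩
    exact_mod_cast h2
  have h1' : q' ∣ q := dvd_aux hq' ha'.2 fun i => by
    obtain ⟨n, hn⟩ := h i
    have h2 : (q' : ℤ) ∣ ((a' i * q : ℕ) : ℤ) := ⟨a i - n * q, by push_cast; linear_combination -hn⟩
    exact_mod_cast h2
  have h2 : q = q' := Nat.dvd_antisymm h1 h1'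
  subst h2
  refine ⟨rfl, funext fun i => ?_⟩
  obtain ⟨n, hn⟩ := h i
  have hq0 : (0 : ℤ) < q := by exact_mod_cast hq
  have h3 : (a i : ℤ) - a' i = n * q := by
    have h4 : (q : ℤ) * ((a i : ℤ) - a' i) = q * (n * q) := by linear_combination hn
    exact mul_left_cancel₀ hq0.ne' h4
  have h5 : (a i : ℤ) < q := by exact_mod_cast ha.1 i
  have h6 : (a' i : ℤ) < q := by exact_mod_cast ha'.1 i
  have h7 : n = 0 := by
    by_contra h8
    rcases lt_or_gt_of_ne h8 with h9 | h9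
    · have : n * q ≤ -1 * q := mul_le_mul_of_nonneg_right (by omega) hq0.le
      omega
    · have : 1 * (q : ℤ) ≤ n * q := mul_le_mul_of_nonneg_right (by omega) hq0.le
      omega
  rw [h7, zero_mul] at h3
  omega

theorem sum_KN (k : ℕ) : ∑ i : Fin k, (i.val + 1) = KN k := by
  rw [Fin.sum_univ_eq_sum_range (fun i => i + 1) k]
  induction k with
  | zero => rfl
  | succ k ih =>
    rw [sum_range_succ, ih]
    unfold KN
    have h : (k + 1) * (k + 1 + 1) = k * (k + 1) + 2 * (k + 1) := by ring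
    rw [h, Nat.add_mul_div_left _ _ (by norm_num)]

theorem KN_pos {k : ℕ} (hk : 1 ≤ k) : 1 ≤ KN k := by
  rw [← sum_KN]
  have h1 : (⟨0, hk⟩ : Fin k).val + 1 ≤ ∑ i : Fin k, (i.val + 1) :=
    single_le_sum (f := fun i : Fin k => i.val + 1) (fun _ _ => Nat.zero_le _) (mem_univ _)
  exact h1

/-! ### the boxes -/

/-- the radii -/
noncomputable def rr (k N Q : ℕ) : Fin k → ℝ := fun i => (Q : ℝ) / (N : ℝ) ^ (i.val + 1)

/-- the centres -/
noncomputable def cc {k : ℕ} (q : ℕ) (a : Fin k → ℕ) : Fin k → ℝ := fun i => (a i : ℝ) / q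

theorem rr_nonneg (k N Q : ℕ) (i : Fin k) : 0 ≤ rr k N Q i := by
  unfold rr
  positivity

theorem rr_le {k N Q : ℕ} (hN : 1 ≤ N) (i : Fin k) : rr k N Q i ≤ (Q : ℝ) / N := by
  unfold rr
  have hN' : (1 : ℝ) ≤ N := by exact_mod_cast hN
  refine div_le_div_of_nonneg_left (by positivity) (by linarith) ?_
  calc (N : ℝ) = (N : ℝ) ^ 1 := (pow_one _).symm
    _ ≤ (N : ℝ) ^ (i.val + 1) := pow_le_pow_right₀ hN' (by omega)

theorem prod_rr {k N Q : ℕ} : ∏ i, (2 * rr k N Q i) = 2 ^ k * (Q : ℝ) ^ k / (N : ℝ) ^ KN k := by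
  unfold rr
  rw [prod_mul_distrib, prod_const, card_univ, Fintype.card_fin, prod_div_distrib, prod_const,
    card_univ, Fintype.card_fin, prod_pow_eq_pow_sum, sum_KN, mul_div_assoc]

theorem box_disj {k N Q : ℕ} (hN : 2 * Q ^ 3 < N) {q q' : ℕ} {a a' : Fin k → ℕ} (hq : 1 ≤ q)
    (hq' : 1 ≤ q') (hQ : q ≤ Q) (hQ' : q' ≤ Q) (ha : a ∈ Red k q) (ha' : a' ∈ Red k q')
    {w : X k} (h1 : w ∈ Bt (cc q a) (rr k N Q)) (h2 : w ∈ Bt (cc q' a') (rr k N Q)) :
    q = q' ∧ a = a' := by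
  obtain ⟨θ, h3, h4⟩ := h1
  obtain ⟨θ', h5, h6⟩ := h2
  have hN1 : 1 ≤ N := by omega
  have hNr : (0 : ℝ) < N := by exact_mod_cast hN1
  have hqr : (0 : ℝ) < q := by exact_mod_cast hq
  have hqr' : (0 : ℝ) < q' := by exact_mod_cast hq'
  have hQr : (0 : ℝ) < Q := lt_of_lt_of_le hqr (by exact_mod_cast hQ)
  refine red_eq hq hq' ha ha' fun i => ?_
  have h7 : ((cc q a i + θ i - (cc q' a' i + θ' i) : ℝ) : UnitAddCircle) = 0 := by
    rw [AddCircle.coe_sub, ← h4 i, ← h6 i, sub_self]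
  rw [AddCircle.coe_eq_zero_iff] at h7
  obtain ⟨n, hn⟩ := h7
  refine ⟨n, ?_⟩
  have h8 : |(((a i : ℤ) * q' - a' i * q - n * (q * q') : ℤ) : ℝ)| < 1 := by
    have h9 : (((a i : ℤ) * q' - a' i * q - n * (q * q') : ℤ) : ℝ) =
        (θ' i - θ i) * (q * q') := by
      push_cast
      unfold cc at hn
      rw [zsmul_eq_mul, mul_one] at hn
      have h10 : θ' i - θ i = (a i : ℝ) / q - (a' i : ℝ) / q' - n := by linarith
      rw [h10]
      field_simp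
    rw [h9, abs_mul, abs_of_pos (mul_pos hqr hqr')]
    have h11 : |θ' i - θ i| ≤ 2 * ((Q : ℝ) / N) := by
      have := abs_sub (θ' i) (θ i)
      have h12 := h3 i
      have h13 := h5 i
      have h14 := rr_le (k := k) (Q := Q) hN1 i
      linarith
    have h15 : (q : ℝ) * q' ≤ Q * Q :=
      mul_le_mul (by exact_mod_cast hQ) (by exact_mod_cast hQ') hqr'.le hQr.le
    calc |θ' i - θ i| * ((q : ℝ) * q') ≤ 2 * ((Q : ℝ) / N) * (Q * Q) :=
          mul_le_mul h11 h15 (by positivity) (by positivity)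
      _ = 2 * (Q : ℝ) ^ 3 / N := by ring
      _ < 1 := by
        rw [div_lt_one hNr]
        exact_mod_cast hN
  have h16 : |(a i : ℤ) * q' - a' i * q - n * (q * q')| < 1 := by
    have : ((|(a i : ℤ) * q' - a' i * q - n * (q * q')| : ℤ) : ℝ) < ((1 : ℤ) : ℝ) := by
      rw [Int.cast_abs, Int.cast_one]
      exact h8
    exact_mod_cast this
  rw [Int.abs_lt_one_iff] at h16
  linarith

/-- the index set of the boxes -/
noncomputable def JJ (k Q : ℕ) : Finset (Σ _ : ℕ, (Fin k → ℕ)) :=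
  (Icc 1 Q).sigma fun q => Red k q

theorem mem_JJ {k Q : ℕ} {p : Σ _ : ℕ, (Fin k → ℕ)} :
    p ∈ JJ k Q ↔ (1 ≤ p.1 ∧ p.1 ≤ Q) ∧ p.2 ∈ Red k p.1 := by
  unfold JJ
  rw [mem_sigma, mem_Icc]

theorem card_JJ (k Q : ℕ) : (JJ k Q).card ≤ Q * Q ^ k := by
  classical
  unfold JJ
  rw [card_sigma]
  have h1 : ∀ q ∈ Icc 1 Q, (Red k q).card ≤ Q ^ k := by
    intro q hq
    rw [mem_Icc] at hq
    unfold Red
    refine (card_filter_le _ _).trans ?_
    rw [Fintype.card_piFinset, prod_const, card_range, card_univ, Fintype.card_fin]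
    exact Nat.pow_le_pow_left hq.2 k
  refine (sum_le_sum h1).trans ?_
  rw [sum_const, Nat.card_Icc, Nat.add_sub_cancel, smul_eq_mul]

theorem Maj_eq {k N Q : ℕ} (hN : 1 ≤ N) :
    Maj k N Q = ⋃ p ∈ JJ k Q, Bt (cc p.1 p.2) (rr k N Q) := by
  have hNr : (0 : ℝ) < N := by exact_mod_cast hN
  have hth : ∀ (θ : Fin k → ℝ) (i : Fin k),
      |θ i| * (N : ℝ) ^ (i.val + 1) ≤ Q ↔ |θ i| ≤ rr k N Q i := by
    intro θ i
    unfold rr
    rw [le_div_iff₀ (by positivity)]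
  ext w
  simp only [Set.mem_iUnion]
  constructor
  · rintro ⟨q, a, θ, h1, h2, h3, h4, h5⟩
    have hq0 : (0 : ℤ) < q := by exact_mod_cast h1
    have hqr : (0 : ℝ) < q := by exact_mod_cast h1
    have hcast : ∀ i, (((a i % (q : ℤ)).toNat : ℕ) : ℤ) = a i % (q : ℤ) := fun i =>
      Int.toNat_of_nonneg (Int.emod_nonneg _ hq0.ne')
    refine ⟨⟨q, fun i => (a i % (q : ℤ)).toNat⟩, ?_, ?_⟩
    · rw [mem_JJ, mem_Red]
      refine ⟨⟨h1, h2⟩, fun i => ?_, fun d hd hdi => h3 d hd fun i => ?_⟩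
      · have h6 := Int.emod_lt_of_pos (a i) hq0
        have h7 := hcast i
        change (a i % (q : ℤ)).toNat < q
        omega
      · have h6 : (d : ℤ) ∣ a i % (q : ℤ) := by
          rw [← hcast i]
          exact_mod_cast hdi i
        have h7 : (d : ℤ) ∣ (q : ℤ) := by exact_mod_cast hd
        have h8 := Int.emod_add_mul_ediv (a i) (q : ℤ)
        rw [← h8]
        exact dvd_add h6 (Dvd.dvd.mul_right h7 _)
    · refine ⟨θ, fun i => (hth θ i).1 (h5 i), fun i => ?_⟩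
      rw [h4 i]
      have h6 : (a i : ℝ) / q + θ i = (cc q (fun i => (a i % (q : ℤ)).toNat) i + θ i) +
          ((a i / (q : ℤ) : ℤ) : ℝ) := by
        unfold cc
        have h7 : (((a i % (q : ℤ)).toNat : ℕ) : ℝ) = ((a i % (q : ℤ) : ℤ) : ℝ) := by
          rw [← hcast i]
          rfl
        have h8 : ((a i : ℤ) : ℝ) = ((a i % (q : ℤ) : ℤ) : ℝ) + q * ((a i / (q : ℤ) : ℤ) : ℝ) := by
          exact_mod_cast (Int.emod_add_mul_ediv (a i) (q : ℤ)).symm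
        rw [h7, h8]
        field_simp
        ring
      have hz : (((a i / (q : ℤ) : ℤ) : ℝ) : UnitAddCircle) = 0 :=
        (AddCircle.coe_eq_zero_iff 1).2 ⟨a i / (q : ℤ), by simp⟩
      rw [h6]
      refine (AddCircle.coe_add 1 _ _).trans ?_
      rw [hz, add_zero]
  · rintro ⟨⟨q, a⟩, hp, θ, h1, h2⟩
    rw [mem_JJ, mem_Red] at hp
    obtain ⟨⟨h3, h4⟩, h5, h6⟩ := hp
    refine ⟨q, fun i => (a i : ℤ), θ, h3, h4, fun d hd hdi => h6 d hd fun i =>
      Int.natCast_dvd_natCast.1 (hdi i), fun i => ?_, fun i => (hth θ i).2 (h1 i)⟩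
    · rw [h2 i]
      unfold cc
      push_cast
      rfl

/-! ### the integral over a box -/

theorem SI_eq {k N Q : ℕ} (hN : 1 ≤ N) :
    SI k Q = (N : ℝ) ^ KN k * ∫ θ in Set.Icc (fun i => - rr k N Q i) (rr k N Q),
      ‖vI (fun i => θ i * (N : ℝ) ^ (i.val + 1))‖ ^ (2 * KN k) := by
  have hNr : (0 : ℝ) < N := by exact_mod_cast hN
  unfold SI
  have hcl : IsClosed {γ : Fin k → ℝ | ∀ i, |γ i| ≤ (Q : ℝ)} := by
    rw [Set.ofPred_forall]
    exact isClosed_iInter fun i => isClosed_le (continuous_abs.comp (continuous_apply i))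
      continuous_const
  rw [← integral_indicator hcl.measurableSet]
  have hms : Measurable fun γ : Fin k → ℝ => ‖vI γ‖ ^ (2 * KN k) :=
    (cont_vI.norm.pow _).measurable
  rw [int_diag (fun i : Fin k => (N : ℝ) ^ (i.val + 1)) (fun i => by positivity) _
    (hms.indicator hcl.measurableSet)]
  rw [prod_pow_eq_pow_sum, sum_KN, ← integral_indicator measurableSet_Icc]
  congr 2
  funext θ
  have hiff : (fun i => θ i * (N : ℝ) ^ (i.val + 1)) ∈ {γ : Fin k → ℝ | ∀ i, |γ i| ≤ (Q : ℝ)} ↔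
      θ ∈ Set.Icc (fun i => - rr k N Q i) (rr k N Q) := by
    have h1 : ∀ i : Fin k, |θ i * (N : ℝ) ^ (i.val + 1)| ≤ (Q : ℝ) ↔ |θ i| ≤ rr k N Q i := by
      intro i
      unfold rr
      rw [le_div_iff₀ (by positivity), abs_mul, abs_of_pos (show (0 : ℝ) < (N : ℝ) ^ (i.val + 1) by
        positivity)]
    constructor
    · intro h
      exact ⟨fun i => (abs_le.1 ((h1 i).1 (h i))).1, fun i => (abs_le.1 ((h1 i).1 (h i))).2⟩
    · intro h i
      exact (h1 i).2 (abs_le.2 ⟨h.1 i, h.2 i⟩)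
  by_cases h : θ ∈ Set.Icc (fun i => - rr k N Q i) (rr k N Q)
  · rw [Set.indicator_of_mem h, Set.indicator_of_mem (hiff.2 h)]
  · rw [Set.indicator_of_notMem h, Set.indicator_of_notMem fun h2 => h (hiff.1 h2)]

theorem vol_Icc_rr {k N Q : ℕ} :
    volume.real (Set.Icc (fun i => - rr k N Q i) (rr k N Q)) =
      2 ^ k * (Q : ℝ) ^ k / (N : ℝ) ^ KN k := by
  rw [measureReal_def, Real.volume_Icc_pi_toReal, ← prod_rr]
  · exact Finset.prod_congr rfl fun i _ => by ring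
  · intro i
    have := rr_nonneg k N Q i
    change - rr k N Q i ≤ rr k N Q i
    linarith

theorem box_int {k : ℕ} {C₀ : ℝ} (hAP : ∀ (N q : ℕ) (a : Fin k → ℤ) (θ : Fin k → ℝ) (w : X k)
      (G : ℝ), 1 ≤ N → 1 ≤ q → 1 ≤ G →
      (∀ i, w i = (((a i : ℝ) / q + θ i : ℝ) : UnitAddCircle)) →
      (∀ i, |θ i| * (N : ℝ) ^ (i.val + 1) ≤ G) →
      ‖f N w - (N : ℂ) * Sq q a * vI (fun i => θ i * (N : ℝ) ^ (i.val + 1))‖ ≤ C₀ * q * G)
    (hC₀ : 1 ≤ C₀) {N Q q : ℕ} (hN : 2 * Q ^ 3 < N) (hq : 1 ≤ q) (hQ : q ≤ Q) (a : Fin k → ℕ) :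
    |(∫ w in Bt (cc q a) (rr k N Q), ‖f N w‖ ^ (2 * KN k)) -
      (N : ℝ) ^ KN k * (‖Sq q (fun i => (a i : ℤ))‖ ^ (2 * KN k) * SI k Q)| ≤
      (C₀ * (Q * Q) * ((2 * KN k : ℕ) : ℝ) * (N : ℝ) ^ (2 * KN k - 1)) *
        (2 ^ k * (Q : ℝ) ^ k / (N : ℝ) ^ KN k) := by
  have hN1 : 1 ≤ N := by omega
  have hNr : (0 : ℝ) < N := by exact_mod_cast hN1
  have hQ1 : 1 ≤ Q := hq.trans hQ
  have hQr : (1 : ℝ) ≤ Q := by exact_mod_cast hQ1
  have hr : ∀ i, rr k N Q i < 1 / 2 := by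
    intro i
    refine lt_of_le_of_lt (rr_le hN1 i) ?_
    rw [div_lt_iff₀ hNr]
    have h1 : Q ≤ Q ^ 3 := Nat.le_self_pow (by norm_num) Q
    have h2 : (2 * Q : ℕ) < N := by omega
    have h3 : (2 : ℝ) * Q < N := by exact_mod_cast h2
    linarith
  have hms : Measurable fun w : X k => ‖f N w‖ ^ (2 * KN k) :=
    ((cont_f N).norm.pow _).measurable
  rw [int_Bt _ _ hr _ hms, SI_eq (N := N) hN1]
  have h1 : (N : ℝ) ^ KN k * (‖Sq q (fun i => (a i : ℤ))‖ ^ (2 * KN k) * ((N : ℝ) ^ KN k *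
      ∫ θ in Set.Icc (fun i => - rr k N Q i) (rr k N Q),
        ‖vI (fun i => θ i * (N : ℝ) ^ (i.val + 1))‖ ^ (2 * KN k))) =
      ∫ θ in Set.Icc (fun i => - rr k N Q i) (rr k N Q),
        ‖(N : ℂ) * Sq q (fun i => (a i : ℤ)) * vI (fun i => θ i * (N : ℝ) ^ (i.val + 1))‖ ^
          (2 * KN k) := by
    have h2 : ∀ θ : Fin k → ℝ,
        ‖(N : ℂ) * Sq q (fun i => (a i : ℤ)) * vI (fun i => θ i * (N : ℝ) ^ (i.val + 1))‖ ^
          (2 * KN k) = ((N : ℝ) ^ (2 * KN k) * ‖Sq q (fun i => (a i : ℤ))‖ ^ (2 * KN k)) *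
          ‖vI (fun i => θ i * (N : ℝ) ^ (i.val + 1))‖ ^ (2 * KN k) := by
      intro θ
      rw [norm_mul, norm_mul, Complex.norm_natCast, mul_pow, mul_pow]
    simp_rw [h2]
    rw [integral_const_mul]
    ring
  rw [h1]
  have cD : Continuous fun θ : Fin k → ℝ => (fun i : Fin k => θ i * (N : ℝ) ^ (i.val + 1)) :=
    continuous_pi fun i => (continuous_apply i).mul continuous_const
  have c1 : Continuous fun θ : Fin k → ℝ =>
      ‖f N (fun i => ((cc q a i + θ i : ℝ) : UnitAddCircle))‖ ^ (2 * KN k) := by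
    refine ((cont_f N).comp ?_).norm.pow _
    exact continuous_pi fun i => cont_mk.comp (continuous_const.add (continuous_apply i))
  have c2 : Continuous fun θ : Fin k → ℝ =>
      ‖(N : ℂ) * Sq q (fun i => (a i : ℤ)) * vI (fun i => θ i * (N : ℝ) ^ (i.val + 1))‖ ^
        (2 * KN k) := by
    exact (continuous_const.mul (cont_vI.comp cD)).norm.pow _
  rw [← integral_sub (c1.continuousOn.integrableOn_compact isCompact_Icc)
    (c2.continuousOn.integrableOn_compact isCompact_Icc), ← Real.norm_eq_abs, ← vol_Icc_rr]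
  refine norm_setIntegral_le_of_norm_le_const (isCompact_Icc.measure_lt_top) ?_
  intro θ hθ
  rw [Real.norm_eq_abs]
  obtain ⟨A, hA⟩ : ∃ A, A = ‖f N (fun i => ((cc q a i + θ i : ℝ) : UnitAddCircle))‖ := ⟨_, rfl⟩
  obtain ⟨B, hB⟩ : ∃ B, B = ‖(N : ℂ) * Sq q (fun i => (a i : ℤ)) *
    vI (fun i => θ i * (N : ℝ) ^ (i.val + 1))‖ := ⟨_, rfl⟩
  rw [← hA, ← hB]
  have hA0 : 0 ≤ A := by rw [hA]; exact norm_nonneg _
  have hB0 : 0 ≤ B := by rw [hB]; exact norm_nonneg _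
  have hAN : A ≤ N := by rw [hA]; exact norm_f _ _
  have hBN : B ≤ N := by
    rw [hB, norm_mul, norm_mul, Complex.norm_natCast]
    have e1 := norm_Sq q hq (fun i => (a i : ℤ))
    have e2 := norm_vI (fun i => θ i * (N : ℝ) ^ (i.val + 1))
    calc (N : ℝ) * ‖Sq q (fun i => (a i : ℤ))‖ * ‖vI (fun i => θ i * (N : ℝ) ^ (i.val + 1))‖ ≤
        (N : ℝ) * 1 * 1 := by gcongr
      _ = N := by ring
  have hAB : |A - B| ≤ C₀ * (Q * Q) := by
    rw [hA, hB]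
    refine (abs_norm_sub_norm_le _ _).trans ?_
    have h3 := hAP N q (fun i => (a i : ℤ)) θ (fun i => ((cc q a i + θ i : ℝ) : UnitAddCircle)) Q
      hN1 hq hQr (fun i => by unfold cc; push_cast; rfl) (fun i => by
        have h4 : |θ i| ≤ rr k N Q i := abs_le.2 ⟨hθ.1 i, hθ.2 i⟩
        unfold rr at h4
        rwa [le_div_iff₀ (by positivity)] at h4)
    refine h3.trans ?_
    have h5 : (q : ℝ) ≤ Q := by exact_mod_cast hQ
    rw [mul_assoc]
    gcongr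
  have h6 := abs_pow_sub_pow_le (a := A) (b := B) (n := 2 * KN k)
  refine h6.trans ?_
  have h7 : max |A| |B| ≤ N := by
    rw [abs_of_nonneg hA0, abs_of_nonneg hB0]
    exact max_le hAN hBN
  have h8 : 0 ≤ max |A| |B| := le_max_of_le_left (abs_nonneg _)
  gcongr

/-! ### the end -/

theorem pf_MJ (hAP : M_AP) : M_MJ := by
  intro k hk
  obtain ⟨C₀, hC₀, h0⟩ := hAP k
  obtain ⟨C, hC⟩ : ∃ C : ℝ, C = 2 ^ k * (C₀ * (2 * KN k : ℕ) + 1) + (2 * k + 3) + 4 := ⟨_, rfl⟩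
  have hKpos : (1 : ℝ) ≤ ((2 * KN k : ℕ) : ℝ) := by
    have := KN_pos (k := k) (by omega)
    exact_mod_cast (show 1 ≤ 2 * KN k by omega)
  have hprod : 0 ≤ C₀ * ((2 * KN k : ℕ) : ℝ) := by positivity
  have h2k : (1 : ℝ) ≤ 2 ^ k := one_le_pow₀ (by norm_num)
  have hk0 : (0 : ℝ) ≤ k := Nat.cast_nonneg k
  have hbig : 0 ≤ 2 ^ k * (C₀ * ((2 * KN k : ℕ) : ℝ) + 1) := by positivity
  have hC4 : 4 ≤ C := by rw [hC]; linarith
  have hCk : 2 * k + 3 ≤ C := by rw [hC]; linarith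
  have hCa : 2 ^ k * (C₀ * ((2 * KN k : ℕ) : ℝ) + 1) ≤ C := by rw [hC]; linarith
  refine ⟨C, by linarith, ?_⟩
  intro N Q hQ hNC
  have hQr : (1 : ℝ) ≤ Q := by exact_mod_cast hQ
  have hQC : ∀ m : ℕ, (m : ℝ) ≤ C → (Q : ℝ) ^ m ≤ (Q : ℝ) ^ C := by
    intro m hm
    rw [← Real.rpow_natCast]
    exact Real.rpow_le_rpow_of_exponent_le hQr hm
  have hQC0 : 0 ≤ (Q : ℝ) ^ C := by positivity
  have hN : 2 * Q ^ 3 < N := by
    have h1 := hQC 3 (by push_cast; linarith)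
    have h2 : 4 * (Q : ℝ) ^ 3 ≤ N := by
      calc 4 * (Q : ℝ) ^ 3 ≤ C * (Q : ℝ) ^ C := mul_le_mul hC4 h1 (by positivity) (by linarith)
        _ ≤ N := hNC
    have h3 : (4 * Q ^ 3 : ℕ) ≤ N := by exact_mod_cast h2
    have h4 : 0 < Q ^ 3 := by positivity
    omega
  have hN1 : 1 ≤ N := by omega
  have hNr : (0 : ℝ) < N := by exact_mod_cast hN1
  have hQ2 : ∀ i, rr k N Q i < 1 / 2 := by
    intro i
    refine lt_of_le_of_lt (rr_le hN1 i) ?_
    rw [div_lt_iff₀ hNr]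
    have h1 : Q ≤ Q ^ 3 := Nat.le_self_pow (by norm_num) Q
    have h2 : (2 * Q : ℕ) < N := by omega
    have h3 : (2 : ℝ) * Q < N := by exact_mod_cast h2
    linarith
  rw [Maj_eq hN1]
  have hmeas : ∀ p ∈ JJ k Q, MeasurableSet (Bt (cc p.1 p.2) (rr k N Q)) :=
    fun p _ => Bt_meas _ _
  have hcardr : ((JJ k Q).card : ℝ) ≤ Q * (Q : ℝ) ^ k := by exact_mod_cast card_JJ k Q
  have hvol : ∀ p ∈ JJ k Q, volume.real (Bt (cc p.1 p.2) (rr k N Q)) =
      2 ^ k * (Q : ℝ) ^ k / (N : ℝ) ^ KN k := by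
    intro p _
    rw [vol_Bt _ _ (rr_nonneg k N Q) hQ2, prod_rr]
  refine ⟨Finset.measurableSet_biUnion _ hmeas, ?_, ?_⟩
  · have h1 := measureReal_biUnion_finset_le (μ := (volume : Measure (X k))) (JJ k Q)
      (fun p => Bt (cc p.1 p.2) (rr k N Q))
    rw [Finset.sum_congr rfl hvol, sum_const, nsmul_eq_mul] at h1
    calc (N : ℝ) ^ KN k * volume.real (⋃ p ∈ JJ k Q, Bt (cc p.1 p.2) (rr k N Q)) ≤
        (N : ℝ) ^ KN k * ((JJ k Q).card * (2 ^ k * (Q : ℝ) ^ k / (N : ℝ) ^ KN k)) := by gcongr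
      _ = (JJ k Q).card * (2 ^ k * (Q : ℝ) ^ k) := by field_simp
      _ ≤ (Q * (Q : ℝ) ^ k) * (2 ^ k * (Q : ℝ) ^ k) := by gcongr
      _ = 2 ^ k * (Q : ℝ) ^ (2 * k + 1) := by ring
      _ ≤ C * (Q : ℝ) ^ C := by
        refine mul_le_mul ?_ (hQC _ ?_) (by positivity) (by linarith)
        · refine le_trans ?_ hCa
          nlinarith
        · push_cast
          linarith
  · rw [integral_biUnion_finset (JJ k Q) hmeas]
    · have h1 : (N : ℝ) ^ KN k * (SS k Q * SI k Q) = ∑ p ∈ JJ k Q,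
          (N : ℝ) ^ KN k * (‖Sq p.1 (fun i => (p.2 i : ℤ))‖ ^ (2 * KN k) * SI k Q) := by
        rw [← mul_sum, ← sum_mul]
        unfold SS st JJ
        rw [sum_sigma]
      rw [h1, ← sum_sub_distrib]
      refine (abs_sum_le_sum_abs _ _).trans ?_
      have h2 : ∀ p ∈ JJ k Q, |(∫ w in Bt (cc p.1 p.2) (rr k N Q), ‖f N w‖ ^ (2 * KN k)) -
          (N : ℝ) ^ KN k * (‖Sq p.1 (fun i => (p.2 i : ℤ))‖ ^ (2 * KN k) * SI k Q)| ≤
          (C₀ * (Q * Q) * ((2 * KN k : ℕ) : ℝ) * (N : ℝ) ^ (2 * KN k - 1)) *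
            (2 ^ k * (Q : ℝ) ^ k / (N : ℝ) ^ KN k) := by
        intro p hp
        rw [mem_JJ] at hp
        exact box_int h0 hC₀ hN hp.1.1 hp.1.2 p.2
      refine (sum_le_sum h2).trans ?_
      rw [sum_const, nsmul_eq_mul]
      have hNK : (N : ℝ) ^ (2 * KN k - 1) / (N : ℝ) ^ KN k = (N : ℝ) ^ ((KN k : ℝ) - 1) := by
        rw [Real.rpow_sub hNr, Real.rpow_one, Real.rpow_natCast]
        have h3 : (N : ℝ) ^ (2 * KN k - 1) * N = (N : ℝ) ^ KN k * (N : ℝ) ^ KN k := by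
          rw [← pow_succ, ← pow_add]
          congr 1
          have := KN_pos (k := k) (by omega)
          omega
        field_simp
        linarith
      calc ((JJ k Q).card : ℝ) * ((C₀ * (Q * Q) * ((2 * KN k : ℕ) : ℝ) *
            (N : ℝ) ^ (2 * KN k - 1)) * (2 ^ k * (Q : ℝ) ^ k / (N : ℝ) ^ KN k)) =
          (JJ k Q).card * ((C₀ * (Q * Q) * ((2 * KN k : ℕ) : ℝ)) * (2 ^ k * (Q : ℝ) ^ k)) *
            ((N : ℝ) ^ (2 * KN k - 1) / (N : ℝ) ^ KN k) := by ring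
        _ = (JJ k Q).card * ((C₀ * (Q * Q) * ((2 * KN k : ℕ) : ℝ)) * (2 ^ k * (Q : ℝ) ^ k)) *
            (N : ℝ) ^ ((KN k : ℝ) - 1) := by rw [hNK]
        _ ≤ (Q * (Q : ℝ) ^ k) * ((C₀ * (Q * Q) * ((2 * KN k : ℕ) : ℝ)) *
            (2 ^ k * (Q : ℝ) ^ k)) * (N : ℝ) ^ ((KN k : ℝ) - 1) := by gcongr
        _ = (2 ^ k * (C₀ * ((2 * KN k : ℕ) : ℝ))) * (Q : ℝ) ^ (2 * k + 3) *
            (N : ℝ) ^ ((KN k : ℝ) - 1) := by ring
        _ ≤ C * (Q : ℝ) ^ C * (N : ℝ) ^ ((KN k : ℝ) - 1) := by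
          refine mul_le_mul_of_nonneg_right (mul_le_mul ?_ (hQC _ ?_) (by positivity)
            (by linarith)) (by positivity)
          · refine le_trans ?_ hCa
            nlinarith
          · push_cast
            linarith
    · intro p hp p' hp' hne
      rw [Finset.mem_coe, mem_JJ] at hp hp'
      rw [Function.onFun, Set.disjoint_left]
      intro w h1 h2
      obtain ⟨h3, h4⟩ := box_disj hN hp.1.1 hp'.1.1 hp.1.2 hp'.1.2 hp.2 hp'.2 h1 h2
      apply hne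
      obtain ⟨q, a⟩ := p
      obtain ⟨q', a'⟩ := p'
      change q = q' at h3
      change a = a' at h4
      rw [h3, h4]
    · intro p _
      exact (((cont_f N).norm.pow _).integrable_of_hasCompactSupport
        (HasCompactSupport.of_compactSpace _)).integrableOn

end Pool.Agent.H7.LVP
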