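import Pool.Agent.H24.LV.TargetsM

/-! Row MJ of the board `lvp_modules` (problem MP_e21eee_nt): tools. -/

set_option autoImplicit false

namespace Pool.Agent.H7.LVP

open Finset MeasureTheory Pool.Agent.H24.CL Pool.Agent.H24.LV

theorem cont_e : Continuous e := by
  unfold e
  exact continuous_subtype_val.comp AddCircle.continuous_toCircle

theorem norm_e (x : UnitAddCircle) : ‖e x‖ = 1 := by
  unfold e
  exact Circle.norm_coe _

theorem cont_f {k : ℕ} (N : ℕ) : Continuous (f N : X k → ℂ) := by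
  unfold f
  refine continuous_finsetSum _ fun n _ => cont_e.comp ?_
  unfold P
  exact continuous_finsetSum _ fun i _ => (continuous_nsmul _).comp (continuous_apply i)

theorem norm_f {k : ℕ} (N : ℕ) (w : X k) : ‖f N w‖ ≤ N := by
  unfold f
  refine (norm_sum_le _ _).trans ?_
  simp [norm_e]

theorem cont_mk : Continuous (fun x : ℝ => (x : UnitAddCircle)) := AddCircle.continuous_mk' 1

theorem norm_vI {k : ℕ} (γ : Fin k → ℝ) : ‖vI γ‖ ≤ 1 := by
  unfold vI
  have h := intervalIntegral.norm_integral_le_of_norm_le_const (a := (0 : ℝ)) (b := 1) (C := 1)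
    (f := fun x : ℝ => e ((∑ i : Fin k, γ i * x ^ (i.val + 1) : ℝ) : UnitAddCircle))
    (fun x _ => (norm_e _).le)
  simpa using h

theorem cont_vI {k : ℕ} : Continuous (vI : (Fin k → ℝ) → ℂ) := by
  unfold vI
  refine intervalIntegral.continuous_parametric_intervalIntegral_of_continuous' ?_ 0 1
  refine cont_e.comp (cont_mk.comp ?_)
  refine continuous_finsetSum _ fun i _ => ?_
  exact ((continuous_apply i).comp continuous_fst).mul (continuous_snd.pow _)

theorem norm_Sq {k : ℕ} (q : ℕ) (hq : 1 ≤ q) (a : Fin k → ℤ) : ‖Sq q a‖ ≤ 1 := by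
  unfold Sq
  have hq' : (0 : ℝ) < q := by exact_mod_cast hq
  rw [norm_mul, norm_div, norm_one, Complex.norm_natCast]
  have h1 : ‖∑ z ∈ range q, e (((∑ i : Fin k, (a i : ℝ) * (z : ℝ) ^ (i.val + 1)) / (q : ℝ) : ℝ) :
    UnitAddCircle)‖ ≤ q := by
    refine (norm_sum_le _ _).trans ?_
    simp [norm_e]
  rw [div_mul_eq_mul_div, one_mul, div_le_one hq']
  exact h1

/-- the box in the torus -/
def Bt {k : ℕ} (c r : Fin k → ℝ) : Set (X k) :=
  {w | ∃ θ : Fin k → ℝ, (∀ i, |θ i| ≤ r i) ∧ ∀ i, w i = ((c i + θ i : ℝ) : UnitAddCircle)}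

theorem Bt_eq {k : ℕ} (c r : Fin k → ℝ) : Bt c r =
    (fun θ : Fin k → ℝ => (fun i => ((c i + θ i : ℝ) : UnitAddCircle) : X k)) ''
      Set.Icc (fun i => - r i) r := by
  ext w
  constructor
  · rintro ⟨θ, h1, h2⟩
    exact ⟨θ, ⟨fun i => (abs_le.1 (h1 i)).1, fun i => (abs_le.1 (h1 i)).2⟩,
      funext fun i => (h2 i).symm⟩
  · rintro ⟨θ, h1, rfl⟩
    exact ⟨θ, fun i => abs_le.2 ⟨h1.1 i, h1.2 i⟩, fun i => rfl⟩

theorem Bt_meas {k : ℕ} (c r : Fin k → ℝ) : MeasurableSet (Bt c r) := by
  rw [Bt_eq]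
  refine (isCompact_Icc.image ?_).isClosed.measurableSet
  exact continuous_pi fun i => cont_mk.comp (continuous_const.add (continuous_apply i))

theorem mp_cube {k : ℕ} (b : Fin k → ℝ) : MeasurePreserving
    (fun (x : Fin k → ℝ) => (fun i => (x i : UnitAddCircle) : X k))
    (volume.restrict {x : Fin k → ℝ | ∀ i, x i ∈ Set.Ioc (b i) (b i + 1)}) volume := by
  have h := measurePreserving_pi (fun i : Fin k => volume.restrict (Set.Ioc (b i) (b i + 1)))
    (fun _ : Fin k => (volume : Measure UnitAddCircle))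
    (f := fun _ x => (x : UnitAddCircle)) (fun i => UnitAddCircle.measurePreserving_mk (b i))
  rw [← Measure.restrict_pi_pi] at h
  have h2 : (Set.univ.pi fun i : Fin k => Set.Ioc (b i) (b i + 1)) =
      {x : Fin k → ℝ | ∀ i, x i ∈ Set.Ioc (b i) (b i + 1)} := by
    ext x
    simp [Set.mem_pi]
  rw [h2] at h
  exact h

/-- integrals over boxes -/
theorem int_Bt {k : ℕ} (c r : Fin k → ℝ) (hr : ∀ i, r i < 1 / 2) (G : X k → ℝ)
    (hG : Measurable G) :
    ∫ w in Bt c r, G w = ∫ θ in Set.Icc (fun i => - r i) r,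
      G (fun i => ((c i + θ i : ℝ) : UnitAddCircle)) := by
  have hmp := mp_cube (fun i => c i - 1 / 2)
  have hm : MeasurableSet {x : Fin k → ℝ | ∀ i, x i ∈ Set.Ioc (c i - 1 / 2) (c i - 1 / 2 + 1)} :=
    MeasurableSet.univ_pi' fun i => measurableSet_Ioc
  rw [← integral_indicator (Bt_meas c r)]
  conv_lhs => rw [← hmp.map_eq]
  rw [integral_map hmp.measurable.aemeasurable
    (hG.indicator (Bt_meas c r)).aestronglyMeasurable]
  rw [← integral_indicator hm, ← integral_add_left_eq_self _ c,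
    ← integral_indicator measurableSet_Icc]
  congr 1
  funext θ
  by_cases h : θ ∈ Set.Icc (fun i => - r i) r
  · rw [Set.indicator_of_mem h, Set.indicator_of_mem, Set.indicator_of_mem]
    · rfl
    · exact ⟨θ, fun i => abs_le.2 ⟨h.1 i, h.2 i⟩, fun i => rfl⟩
    · intro i
      have h1 := h.1 i
      have h2 := h.2 i
      have h3 := hr i
      simp only [Pi.add_apply, Set.mem_Ioc]
      constructor <;> linarith
  · rw [Set.indicator_of_notMem h]
    by_cases h1 : (c + θ) ∈ {x : Fin k → ℝ | ∀ i, x i ∈ Set.Ioc (c i - 1 / 2) (c i - 1 / 2 + 1)}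
    · rw [Set.indicator_of_mem h1]
      refine Set.indicator_of_notMem ?_ _
      rintro ⟨θ', h2, h3⟩
      apply h
      have h4 : θ = θ' := by
        funext i
        have h5 := h3 i
        change (((c + θ) i : ℝ) : UnitAddCircle) = _ at h5
        rw [AddCircle.coe_eq_coe_iff_of_mem_Ioc (a := c i - 1 / 2) (h1 i)] at h5
        · simpa using h5
        · have h6 := abs_le.1 (h2 i)
          have h7 := hr i
          constructor <;> linarith [h6.1, h6.2]
      rw [h4]
      exact ⟨fun i => (abs_le.1 (h2 i)).1, fun i => (abs_le.1 (h2 i)).2⟩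
    · rw [Set.indicator_of_notMem h1]

theorem vol_Bt {k : ℕ} (c r : Fin k → ℝ) (h0 : ∀ i, 0 ≤ r i) (hr : ∀ i, r i < 1 / 2) :
    volume.real (Bt c r) = ∏ i, (2 * r i) := by
  have h := int_Bt c r hr (fun _ => 1) measurable_const
  rw [setIntegral_const, setIntegral_const, smul_eq_mul, smul_eq_mul, mul_one, mul_one] at h
  rw [h, measureReal_def, Real.volume_Icc_pi_toReal]
  · exact Finset.prod_congr rfl fun i _ => by ring
  · intro i
    have := h0 i
    change - r i ≤ r i
    linarith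

/-- the change of variables by a diagonal matrix -/
theorem int_diag {k : ℕ} (D : Fin k → ℝ) (hD : ∀ i, 0 < D i) (G : (Fin k → ℝ) → ℝ)
    (hG : Measurable G) :
    ∫ γ, G γ = (∏ i, D i) * ∫ θ : Fin k → ℝ, G (fun i => θ i * D i) := by
  have hdet : (Matrix.diagonal D).det = ∏ i, D i := Matrix.det_diagonal
  have hpos : 0 < ∏ i, D i := Finset.prod_pos fun i _ => hD i
  have h1 := Real.smul_map_diagonal_volume_pi (D := D) (by rw [hdet]; exact hpos.ne')
  conv_lhs => rw [← h1]
  rw [integral_smul_measure, hdet, abs_of_pos hpos, ENNReal.toReal_ofReal hpos.le, smul_eq_mul,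
    integral_map (Continuous.measurable (LinearMap.continuous_on_pi _)).aemeasurable
      hG.aestronglyMeasurable]
  congr 2
  funext θ
  congr 1
  funext i
  rw [Matrix.toLin'_apply, Matrix.mulVec_diagonal, mul_comm]

end Pool.Agent.H7.LVP
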